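import Mathlib
import Pool.Agent.X238.Ccj.Main

set_option autoImplicit false

/-!
# `c`-conjugacy is undecidable for a finite length-reducing confluent system

Two kinds of heads act on a word `g`: right-moving heads with a stack on their left, and left-moving
heads with a stack on their right; a right-moving head followed by a left-moving head is zero, which
makes the system confluent. The instance is `a = F₀ D₀`, `b = P₀ β w E₀` with left-moving heads
`F₀`, `P₀` and right-moving heads `D₀`, `E₀`. A solution of `a g = g b ≠ 0` has to satisfy
`D₀ g →* β w E₀` and `g P₀ →* F₀`; the last block of such a `g` lists a word `y` and indices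
`i₁, …, iₖ`, the first condition checks `y = w v_{i₁} ⋯ v_{iₖ}` and the second one
`y = u_{i₁} ⋯ u_{iₖ}`: a solution of the Post correspondence problem with fixed pairs and the input
word `w`. On the other hand `b h = h a ≠ 0` always has a solution. Since nothing can pass the
boundary between `F₀` and `D₀` (or `P₀` and `β`), `g ∈ P(a)` means `a g ≠ 0`.
-/

namespace Pool.Agent.Results.MP_a5b0d0_al.CConjUndecidable

open Pool.Agent.X238.Mcs Pool.Agent.X238.Ccj

/-- There is a finite length-reducing confluent system over a finite alphabet such that the
`c`-conjugacy problem for its monoid is undecidable. -/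
theorem result : ∃ (n : ℕ) (R : Set (List (Fin n) × List (Fin n))),
    R.Finite ∧ LengthReducing R ∧ Confluent R ∧
    ¬ ComputablePred fun p : List (Fin n) × List (Fin n) => CConj (cls R p.1) (cls R p.2) :=
  main

end Pool.Agent.Results.MP_a5b0d0_al.CConjUndecidable
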